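import Pool.Agent.MP_ed9623_an.H77.SpecX

/-! The curl in a chart. -/

open MeasureTheory Filter Topology Set
open scoped ContDiff

namespace Pool.Agent.MP_ed9623_an.H77

open H64

namespace Crl

theorem dd_two (γ : ℝ → ℝ) (i : Fin 2) {φ ψ : P → ℝ} (hφ : ContDiff ℝ ∞ φ) (hψ : ContDiff ℝ ∞ ψ)
    (a c : ℝ) (p : P) :
    dd γ i (fun p => a * φ p + c * ψ p) p = a * dd γ i φ p + c * dd γ i ψ p := by
  have h0 : dd γ i (fun _ => (0 : ℝ)) p = 0 := by
    have := dd_lin γ i (φ := fun _ => (0 : ℝ)) (ψ := fun _ => (0 : ℝ)) contDiff_const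
      contDiff_const 1 p
    simp only [mul_zero, add_zero, one_mul] at this
    linarith
  have h1 := dd_lin γ i (φ := fun _ => (0 : ℝ)) contDiff_const hφ a p
  simp only [zero_add, h0] at h1
  rw [dd_lin γ i (contDiff_const.mul hφ) hψ c p, h1]

/-- The chart as a homeomorphism. -/
noncomputable def hm (x τ : P) (γ : ℝ → ℝ) (hτ : τ.1 ^ 2 + τ.2 ^ 2 = 1) (hγ : Gam γ) : P ≃ₜ P where
  toFun := Th x τ γ
  invFun := Thi x τ γ
  left_inv := Thi_Th hτ
  right_inv := Th_Thi hτ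
  continuous_toFun := (sm_Th hγ x τ).continuous
  continuous_invFun := (sm_Thi hγ x τ).continuous

end Crl

theorem rowCrl : OfCrl := by
  intro hT x τ γ hτ hγ
  obtain ⟨mp, -, -, ch, -⟩ := hT x τ γ hτ hγ
  refine ⟨fun ζ hζ p => ?_, fun ζ => ?_, fun Ω r f hΩ hc hf => ?_⟩
  · have s : ∀ j, ContDiff ℝ ∞ fun p => ζ j (Th x τ γ p) := fun j => (hζ j).comp (sm_Th hγ x τ)
    have e : ∀ j, tv x τ γ ζ j = fun p =>
        Rm τ j 0 * ζ 0 (Th x τ γ p) + Rm τ j 1 * ζ 1 (Th x τ γ p) := fun j => by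
      funext p; simp only [tv, Fin.sum_univ_two]
    simp only [crl, e, dd_zero]
    rw [Crl.dd_two γ 0 (s 0) (s 1), Crl.dd_two γ 1 (s 0) (s 1), (ch _ (hζ 0)).1, (ch _ (hζ 0)).1,
      (ch _ (hζ 1)).1, (ch _ (hζ 1)).1]
    simp only [tv, Fin.sum_univ_two, Rm, Matrix.cons_val_zero, Matrix.cons_val_one]
    linear_combination (pd (ee 0) (ζ 1) (Th x τ γ p) - pd (ee 1) (ζ 0) (Th x τ γ p)) * hτ
  · funext j p
    simp only [tv, bv, Thi_Th hτ, Fin.sum_univ_two]
    fin_cases j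
    · simp only [Rm, Fin.zero_eta, Matrix.cons_val_zero, Matrix.cons_val_one]
      linear_combination ζ 0 p * hτ
    · simp only [Rm, Fin.mk_one, Matrix.cons_val_zero, Matrix.cons_val_one]
      linear_combination ζ 1 p * hτ
  · rw [← integral_indicator hΩ.measurableSet, ← integral_indicator (isOpen_Qp 0 r).measurableSet,
      ← mp.integral_comp (Crl.hm x τ γ hτ hγ).measurableEmbedding]
    refine integral_congr_ae (Eventually.of_forall fun p => ?_)
    beta_reduce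
    by_cases hp : p ∈ Q r
    · by_cases h0 : 0 < p.2
      · rw [indicator_of_mem ((hc.6 p hp).2 h0), indicator_of_mem (show p ∈ Qp 0 r from ⟨hp, h0⟩)]
      · rw [indicator_of_notMem (fun h => h0 ((hc.6 p hp).1 h)),
          indicator_of_notMem (fun h : p ∈ Qp 0 r => h0 h.2)]
    · have z : f (Th x τ γ p) = 0 := hf _ (by rwa [mem_preimage, Thi_Th hτ])
      rw [indicator_of_notMem (fun h : p ∈ Qp 0 r => hp h.1)]
      by_cases h : Th x τ γ p ∈ Ω
      · rw [indicator_of_mem h, z]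
      · rw [indicator_of_notMem h]

end Pool.Agent.MP_ed9623_an.H77
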